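import Pool.Agent.H12.QN.Stmts

/-! Board `qnb`, row AVG: the mean square of `WW K (q y + b)`. -/

set_option autoImplicit false

namespace Pool.QN

open Finset MeasureTheory

theorem avg_ee_add (s t : ℝ) : ee (s + t) = ee s * ee t := by
  unfold ee
  rw [← Complex.exp_add]
  congr 1
  push_cast
  ring

theorem avg_ee_norm (t : ℝ) : ‖ee t‖ = 1 := by
  unfold ee
  exact Complex.norm_exp_ofReal_mul_I _

theorem avg_ee_conj (t : ℝ) : (starRingEnd ℂ) (ee t) = ee (-t) := by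
  unfold ee
  rw [← Complex.exp_conj]
  congr 1
  rw [map_mul, Complex.conj_ofReal, Complex.conj_I]
  push_cast
  ring

/-- expansion of the Fejer kernel -/
theorem avg_Fj (j : ℕ) (t : ℝ) : ((Fj j t : ℝ) : ℂ) =
    ∑ p ∈ range (2 ^ j) ×ˢ range (2 ^ j), (1 / 2 ^ j : ℂ) * ee (((p.1 : ℝ) - p.2) * t) := by
  have h1 : ((‖DD (2 ^ j) t‖ ^ 2 : ℝ) : ℂ) = DD (2 ^ j) t * (starRingEnd ℂ) (DD (2 ^ j) t) := by
    rw [Complex.mul_conj, Complex.normSq_eq_norm_sq]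
  unfold Fj
  rw [Complex.ofReal_div, h1]
  unfold DD
  rw [map_sum, sum_mul_sum, ← mul_sum, sum_product]
  push_cast
  rw [div_eq_mul_inv, mul_comm, one_div]
  congr 1
  refine sum_congr rfl fun k _ => sum_congr rfl fun l _ => ?_
  rw [avg_ee_conj, ← avg_ee_add]
  congr 1
  ring

/-- the index set -/
def avgT (K : ℕ) : Finset ((_ : ℕ) × (_ : ℕ) × (ℕ × ℕ)) :=
  (range K).sigma fun _ => (range (Nat.clog 2 K + 1)).sigma fun j =>
    range (2 ^ j) ×ˢ range (2 ^ j)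

/-- the frequency -/
def avgF (q : ℤ) (x : (_ : ℕ) × (_ : ℕ) × (ℕ × ℕ)) : ℤ :=
  2 * x.1 * q * ((x.2.2.1 : ℤ) - x.2.2.2)

/-- the coefficient -/
noncomputable def avgC (b : ℝ) (x : (_ : ℕ) × (_ : ℕ) × (ℕ × ℕ)) : ℂ :=
  (1 / 2 ^ x.2.1 : ℂ) * ee (2 * x.1 * ((x.2.2.1 : ℝ) - x.2.2.2) * b)

theorem avg_WW (K : ℕ) (q : ℤ) (b y : ℝ) : ((WW K (q * y + b) : ℝ) : ℂ) =
    ∑ x ∈ avgT K, avgC b x * ee ((avgF q x : ℝ) * y) := by
  unfold WW avgT
  rw [sum_sigma]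
  push_cast
  refine sum_congr rfl fun h _ => ?_
  rw [sum_sigma]
  refine sum_congr rfl fun j _ => ?_
  rw [avg_Fj]
  refine sum_congr rfl fun p _ => ?_
  unfold avgC avgF
  simp only
  rw [mul_assoc (1 / 2 ^ j : ℂ), ← avg_ee_add]
  congr 2
  push_cast
  ring

theorem avg_group (T : Finset ((_ : ℕ) × (_ : ℕ) × (ℕ × ℕ)))
    (F : (_ : ℕ) × (_ : ℕ) × (ℕ × ℕ) → ℤ) (c : (_ : ℕ) × (_ : ℕ) × (ℕ × ℕ) → ℂ) (y : ℝ) :
    ∑ x ∈ T, c x * ee ((F x : ℝ) * y) =
      ∑ m ∈ T.image F, (∑ x ∈ T with F x = m, c x) * ee ((m : ℝ) * y) := by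
  rw [← sum_fiberwise_of_maps_to (fun x hx => mem_image_of_mem F hx)]
  refine sum_congr rfl fun m _ => ?_
  rw [sum_mul]
  refine sum_congr rfl fun x hx => ?_
  rw [(mem_filter.1 hx).2]

theorem avg_two_pow_clog (K : ℕ) (hK : 1 ≤ K) : (2:ℕ) ^ Nat.clog 2 K ≤ 2 * K := by
  rcases Nat.lt_or_ge 1 K with h | h
  · have h1 := Nat.pow_pred_clog_lt_self (b := 2) (by norm_num) h
    have h2 : 0 < Nat.clog 2 K := Nat.clog_pos (by norm_num) h
    have h3 : (2:ℕ) ^ Nat.clog 2 K = 2 * 2 ^ (Nat.clog 2 K).pred := by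
      rw [← pow_succ']
      congr 1
      rw [Nat.pred_eq_sub_one]
      omega
    omega
  · have : K = 1 := le_antisymm h hK
    subst this
    simp

/-- number of frequencies -/
theorem avg_card (K : ℕ) (hK : 1 ≤ K) (q : ℤ) :
    (((avgT K).image (avgF q)).card : ℝ) ≤ 5 * (K : ℝ) ^ 2 := by
  have hsub : (avgT K).image (avgF q) ⊆
      (Icc (-(2 * (K : ℤ) ^ 2)) (2 * (K : ℤ) ^ 2)).image (fun u => 2 * q * u) := by
    intro m hm
    obtain ⟨x, hx, rfl⟩ := mem_image.1 hm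
    obtain ⟨h, j, k, l⟩ := x
    unfold avgT at hx
    rw [mem_sigma, mem_sigma, mem_product, mem_range, mem_range, mem_range, mem_range] at hx
    obtain ⟨h1, h2, h3, h4⟩ := hx
    simp only at h1 h2 h3 h4
    have h5 : (2:ℕ) ^ j ≤ 2 * K :=
      (Nat.pow_le_pow_right (by norm_num) (by omega)).trans (avg_two_pow_clog K hK)
    refine mem_image.2 ⟨(h : ℤ) * ((k : ℤ) - l), ?_, ?_⟩
    · rw [mem_Icc]
      have hk : (k : ℤ) ≤ 2 * K := by exact_mod_cast (h3.le.trans h5)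
      have hl : (l : ℤ) ≤ 2 * K := by exact_mod_cast (h4.le.trans h5)
      have hk0 : (0 : ℤ) ≤ k := by positivity
      have hl0 : (0 : ℤ) ≤ l := by positivity
      have hh : (h : ℤ) ≤ K := by exact_mod_cast h1.le
      have hh0 : (0 : ℤ) ≤ h := by positivity
      have hK0 : (0 : ℤ) ≤ K := by positivity
      constructor
      · nlinarith [mul_le_mul hh hl hl0 hK0, mul_nonneg hh0 hk0]
      · nlinarith [mul_le_mul hh hk hk0 hK0, mul_nonneg hh0 hl0]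
    · unfold avgF
      simp only
      ring
  have h1 := (card_le_card hsub).trans card_image_le
  have h2 : (Icc (-(2 * (K : ℤ) ^ 2)) (2 * (K : ℤ) ^ 2)).card = 4 * K ^ 2 + 1 := by
    rw [Int.card_Icc]
    have : (2 * (K : ℤ) ^ 2 + 1 - -(2 * (K : ℤ) ^ 2)) = ((4 * K ^ 2 + 1 : ℕ) : ℤ) := by
      push_cast
      ring
    rw [this, Int.toNat_natCast]
  rw [h2] at h1
  have h3 : (((avgT K).image (avgF q)).card : ℝ) ≤ 4 * (K : ℝ) ^ 2 + 1 := by exact_mod_cast h1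
  have hK1 : (1 : ℝ) ≤ K := by exact_mod_cast hK
  nlinarith

/-- the coefficients -/
theorem avg_coef (C e : ℝ) (hC : 0 < C) (K : ℕ) (q : ℤ)
    (hc : ∀ G : ℤ → ℝ, (∀ m, 0 ≤ G m) → ∃ S : Finset ℤ,
      ∑ h ∈ range K, ∑ j ∈ range (Nat.clog 2 K + 1),
        (∑ k ∈ range (2 ^ j), ∑ l ∈ range (2 ^ j), G (2 * h * q * ((k:ℤ) - l))) / 2 ^ j
        ≤ C * (K:ℝ) ^ e * (K * G 0 + ∑ m ∈ S, G m)) (b : ℝ) (m : ℤ) :
    ‖∑ x ∈ avgT K with avgF q x = m, avgC b x‖ ≤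
      C * (K : ℝ) ^ e * ((if m = 0 then (K : ℝ) else 0) + 1) := by
  obtain ⟨S, hS⟩ := hc (fun n => if n = m then 1 else 0) (by
    intro n
    split_ifs <;> norm_num)
  have hS1 : ∑ n ∈ S, (if n = m then (1:ℝ) else 0) ≤ 1 := by
    rw [sum_ite_eq' S m]
    split_ifs <;> norm_num
  have h0 : (K : ℝ) * (if (0 : ℤ) = m then (1:ℝ) else 0) = if m = 0 then (K : ℝ) else 0 := by
    by_cases h : m = 0
    · rw [if_pos h, if_pos h.symm, mul_one]
    · rw [if_neg h, if_neg (fun h' => h h'.symm), mul_zero]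
  calc ‖∑ x ∈ avgT K with avgF q x = m, avgC b x‖
      ≤ ∑ x ∈ avgT K with avgF q x = m, ‖avgC b x‖ := norm_sum_le _ _
    _ = ∑ x ∈ avgT K, (if avgF q x = m then (1 : ℝ) else 0) / 2 ^ x.2.1 := by
        rw [sum_filter]
        refine sum_congr rfl fun x _ => ?_
        by_cases h : avgF q x = m
        · rw [if_pos h, if_pos h]
          unfold avgC
          rw [norm_mul, avg_ee_norm, mul_one]
          simp
        · rw [if_neg h, if_neg h, zero_div]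
    _ = ∑ h ∈ range K, ∑ j ∈ range (Nat.clog 2 K + 1),
        (∑ k ∈ range (2 ^ j), ∑ l ∈ range (2 ^ j),
          (if 2 * (h:ℤ) * q * ((k:ℤ) - l) = m then (1 : ℝ) else 0)) / 2 ^ j := by
        unfold avgT
        rw [sum_sigma]
        refine sum_congr rfl fun h _ => ?_
        rw [sum_sigma]
        refine sum_congr rfl fun j _ => ?_
        rw [sum_product, sum_div]
        refine sum_congr rfl fun k _ => ?_
        rw [sum_div]
        rfl
    _ ≤ C * (K:ℝ) ^ e * (K * (if (0 : ℤ) = m then (1:ℝ) else 0) +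
          ∑ n ∈ S, (if n = m then (1:ℝ) else 0)) := hS
    _ ≤ C * (K : ℝ) ^ e * ((if m = 0 then (K : ℝ) else 0) + 1) := by
        rw [h0]
        have h2 : 0 ≤ C * (K : ℝ) ^ e := by positivity
        exact mul_le_mul_of_nonneg_left (by linarith) h2

theorem avg_thm (h1 : ORTStmt) (h2 : CNTStmt) : AVGStmt := by
  intro ε hε
  obtain ⟨C, hC, hc⟩ := h2 (ε / 2) (by positivity)
  refine ⟨9 * C ^ 2, by positivity, ?_⟩
  intro K hK q hq b
  have hK1 : (1 : ℝ) ≤ K := by exact_mod_cast hK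
  have hcoef := avg_coef C (ε / 2) hC K q (hc K hK q hq) b
  obtain ⟨β, hβ⟩ : ∃ β : ℤ → ℂ, β = fun m => ∑ x ∈ avgT K with avgF q x = m, avgC b x :=
    ⟨_, rfl⟩
  have heq : ∀ y : ℝ, (WW K (q * y + b)) ^ 2 =
      ‖∑ m ∈ (avgT K).image (avgF q), β m * ee (m * y)‖ ^ 2 := by
    intro y
    have h3 := avg_WW K q b y
    rw [avg_group] at h3
    rw [hβ]
    simp only
    rw [← h3, Complex.norm_real, Real.norm_eq_abs, sq_abs]
  simp only [heq]
  rw [h1]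
  have hX : 0 ≤ C * (K : ℝ) ^ (ε / 2) := by positivity
  have hsq : ((K : ℝ) ^ (ε / 2)) ^ 2 = (K : ℝ) ^ ε := by
    rw [← Real.rpow_natCast, ← Real.rpow_mul (by linarith)]
    congr 1
    push_cast
    ring
  have hbound : ∀ m ∈ (avgT K).image (avgF q), ‖β m‖ ^ 2 ≤
      (C * (K : ℝ) ^ (ε / 2)) ^ 2 * ((if m = 0 then 4 * (K : ℝ) ^ 2 else 0) + 1) := by
    intro m _
    have h3 := hcoef m
    rw [hβ]
    simp only
    have h4 : ‖∑ x ∈ avgT K with avgF q x = m, avgC b x‖ ^ 2 ≤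
        (C * (K : ℝ) ^ (ε / 2) * ((if m = 0 then (K : ℝ) else 0) + 1)) ^ 2 :=
      pow_le_pow_left₀ (norm_nonneg _) h3 2
    refine h4.trans ?_
    rw [mul_pow]
    refine mul_le_mul_of_nonneg_left ?_ (by positivity)
    split_ifs
    · nlinarith
    · norm_num
  calc ∑ m ∈ (avgT K).image (avgF q), ‖β m‖ ^ 2
      ≤ ∑ m ∈ (avgT K).image (avgF q),
        (C * (K : ℝ) ^ (ε / 2)) ^ 2 * ((if m = 0 then 4 * (K : ℝ) ^ 2 else 0) + 1) :=
        sum_le_sum hbound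
    _ = (C * (K : ℝ) ^ (ε / 2)) ^ 2 *
        ((∑ m ∈ (avgT K).image (avgF q), (if m = 0 then 4 * (K : ℝ) ^ 2 else 0)) +
          ((avgT K).image (avgF q)).card) := by
        rw [← mul_sum, sum_add_distrib, sum_const, nsmul_eq_mul, mul_one]
    _ ≤ (C * (K : ℝ) ^ (ε / 2)) ^ 2 * (4 * (K : ℝ) ^ 2 + 5 * (K : ℝ) ^ 2) := by
        refine mul_le_mul_of_nonneg_left (add_le_add ?_ (avg_card K hK q)) (by positivity)
        rw [sum_ite_eq']
        split_ifs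
        · exact le_rfl
        · positivity
    _ = 9 * C ^ 2 * (K : ℝ) ^ (2 + ε) := by
        rw [mul_pow, hsq, Real.rpow_add (by linarith), Real.rpow_two]
        ring

end Pool.QN
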