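import Pool.Agent.H79.QN.Stmts

/-!
# Row SMB of the board `qn`
-/

set_option autoImplicit false

namespace Pool.Agent.H79.QN

open Finset

theorem smb (h1 : S_CTB) : S_SMB := by
  refine ⟨500, by norm_num, ?_⟩
  intro N P ρ w S hN hP hρ hw hS
  have hcast : ∀ w' : ℤ × ℤ, |(nsq w : ℝ) - nsq w'| = ((nsq w - nsq w').natAbs : ℝ) := by
    intro w'
    rw [Nat.cast_natAbs]
    push_cast
    rfl
  obtain ⟨D, hDdef⟩ : ∃ D : ℤ × ℤ → ℕ, D = fun w' => (nsq w - nsq w').natAbs := ⟨_, rfl⟩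
  have hDc : ∀ w' : ℤ × ℤ, |(nsq w : ℝ) - nsq w'| = (D w' : ℝ) := by
    intro w'
    rw [hcast, hDdef]
  have hD1 : ∀ w' ∈ S, D w' ≠ 0 := by
    intro w' hw'
    have h2 := (hS w' hw').2.2.1
    rw [hDdef]
    intro h3
    exact h2 (by
      have h4 := Int.natAbs_eq_zero.1 h3
      omega)
  obtain ⟨T, hT⟩ : ∃ T : ℕ, T = Nat.log 2 (16 * N ^ 2) + 1 := ⟨_, rfl⟩
  have hmap : ∀ w' ∈ S, Nat.log 2 (D w') ∈ range T := by
    intro w' hw'
    have h2 : D w' ≤ 16 * N ^ 2 := by
      have h3 := (hS w' hw').2.2.2.2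
      rw [hDc] at h3
      exact_mod_cast h3
    rw [mem_range, hT]
    exact Nat.lt_succ_of_le (Nat.log_mono_right h2)
  rw [← Finset.sum_fiberwise_of_maps_to hmap]
  have hb : ∀ t ∈ range T,
      ∑ w' ∈ S with Nat.log 2 (D w') = t, 1 / |(nsq w : ℝ) - nsq w'| ≤ 100 := by
    intro t _
    have hpow : (0 : ℝ) < 2 ^ t := by positivity
    have hc := h1 P ρ (2 ^ t) w (S.filter (fun w' => Nat.log 2 (D w') = t)) hP hρ
      (one_le_pow₀ (by norm_num)) hw (by
        intro w' hw'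
        rw [mem_filter] at hw'
        obtain ⟨hw1, hw2⟩ := hw'
        obtain ⟨a1, a2, a3, a4, a5⟩ := hS w' hw1
        have h3 : D w' < 2 ^ (t + 1) := by
          rw [← hw2]
          exact Nat.lt_pow_succ_log_self (by norm_num) _
        have h4 : (D w' : ℝ) ≤ 2 * 2 ^ t := by
          have h5 : (D w' : ℝ) < 2 ^ (t + 1) := by exact_mod_cast h3
          rw [pow_succ] at h5
          linarith
        rw [hDc] at a4
        refine ⟨a1, a2, ?_, ?_⟩
        · rw [hDc]
          exact h4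
        · linarith)
    calc ∑ w' ∈ S with Nat.log 2 (D w') = t, 1 / |(nsq w : ℝ) - nsq w'|
        ≤ ∑ w' ∈ S with Nat.log 2 (D w') = t, 1 / (2 : ℝ) ^ t := by
          refine sum_le_sum ?_
          intro w' hw'
          rw [mem_filter] at hw'
          obtain ⟨hw1, hw2⟩ := hw'
          rw [hDc]
          have h3 : 2 ^ t ≤ D w' := by
            rw [← hw2]
            exact Nat.pow_log_le_self 2 (hD1 w' hw1)
          have h4 : (2 : ℝ) ^ t ≤ (D w' : ℝ) := by exact_mod_cast h3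
          exact one_div_le_one_div_of_le hpow h4
      _ = ((S.filter (fun w' => Nat.log 2 (D w') = t)).card : ℝ) * (1 / (2 : ℝ) ^ t) := by
          rw [sum_const, nsmul_eq_mul]
      _ ≤ (100 * 2 ^ t) * (1 / (2 : ℝ) ^ t) :=
          mul_le_mul_of_nonneg_right hc (by positivity)
      _ = 100 := by field_simp
  have hN1 : (1 : ℝ) ≤ N := by exact_mod_cast hN
  have hlog : 0 ≤ Real.log N := Real.log_nonneg hN1
  have hTb : (T : ℝ) ≤ 5 + 3 * Real.log N := by
    have h2 : ((Nat.log 2 (16 * N ^ 2) : ℕ) : ℝ) ≤ Real.logb 2 ((16 * N ^ 2 : ℕ) : ℝ) := by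
      have h3 := Real.natLog_le_logb (16 * N ^ 2) 2
      exact_mod_cast h3
    have h3 : Real.logb 2 ((16 * N ^ 2 : ℕ) : ℝ) = 4 + 2 * Real.log N / Real.log 2 := by
      push_cast
      have h4 : Real.log 2 ≠ 0 := (Real.log_pos (by norm_num)).ne'
      rw [Real.logb, Real.log_mul (by norm_num) (by positivity), Real.log_pow]
      have h5 : Real.log 16 = 4 * Real.log 2 := by
        rw [show (16 : ℝ) = 2 ^ 4 by norm_num, Real.log_pow]
        norm_num
      rw [h5]
      field_simp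
      push_cast
      ring
    have h6 : 2 * Real.log N / Real.log 2 ≤ 3 * Real.log N := by
      have h7 : 0.6931471803 < Real.log 2 := Real.log_two_gt_d9
      rw [div_le_iff₀ (by linarith)]
      nlinarith
    rw [hT]
    push_cast
    linarith
  calc ∑ t ∈ range T, ∑ w' ∈ S with Nat.log 2 (D w') = t, 1 / |(nsq w : ℝ) - nsq w'|
      ≤ ∑ t ∈ range T, (100 : ℝ) := sum_le_sum hb
    _ = 100 * (T : ℝ) := by
        rw [sum_const, card_range, nsmul_eq_mul]
        ring
    _ ≤ 500 * (1 + Real.log N) := by linarith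

end Pool.Agent.H79.QN
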